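import Pool.Agent.Run7.h402.PG.IfaceL

/-!
# Project PG, piece LF: the law for one factor (author helper889)
-/

set_option autoImplicit false

open Finset

namespace Run7.h889.PG

open Run7.h402.PX Run7.h402.PY Run7.h402.PG
open Pool.Agent.H373R2.T7
open Pool.Agent.W93.AU (dI)
open Pool.Agent.TH212.EH (En)
open Pool.Agent.N475.SP (dom)

noncomputable section

/-- the difference of the two kinds of weights -/
def er (z m : ℕ) : ℝ := (ArithmeticFunction.vonMangoldt m - lamz z m) - Dz z m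

theorem Dz_toNat (z : ℕ) (k : ℤ) :
    Dz z k.toNat = dI z k - (if 1 ≤ k then er z k.toNat else 0) := by
  unfold dI lamI lamzI er
  split_ifs with h
  · ring
  · have : k.toNat = 0 := by omega
    rw [this, Dz_zero z 0 (by omega)]
    ring

theorem sum_er (z H M : ℕ) (v : ℤ) (hv : v ≤ M) (hH : H ≤ M) :
    ∑ m ∈ range H, |(if 1 ≤ v + (m : ℤ) then er z (v + (m : ℤ)).toNat else 0)| ≤
      ∑ j ∈ Icc 1 (2 * M), |er z j| := by
  have h1 : ∀ m ∈ range H, |(if 1 ≤ v + (m : ℤ) then er z (v + (m : ℤ)).toNat else 0)| =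
      if 1 ≤ v + (m : ℤ) then |er z (v + (m : ℤ)).toNat| else 0 := by
    intro m _
    split_ifs
    · rfl
    · exact abs_zero
  rw [sum_congr rfl h1, ← sum_filter]
  have hinj : Set.InjOn (fun m : ℕ => (v + (m : ℤ)).toNat)
      ((range H).filter (fun m : ℕ => 1 ≤ v + (m : ℤ)) : Finset ℕ) := by
    intro x hx y hy h
    rw [Finset.mem_coe, mem_filter] at hx hy
    simp only at h
    omega
  rw [← sum_image (f := fun j => |er z j|) hinj]
  apply sum_le_sum_of_subset_of_nonneg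
  · intro j hj
    rw [mem_image] at hj
    obtain ⟨m, hm, rfl⟩ := hj
    rw [mem_filter, mem_range] at hm
    rw [mem_Icc]
    omega
  · intro j _ _
    exact abs_nonneg _

/-- replacing `Dz` by `dI` -/
theorem swap (z H M T : ℕ) (v : ℕ → ℤ) (w : ℕ → ℝ) (hv : ∀ t < T, v t ≤ M) (hH : H ≤ M)
    (hw : ∀ t < T, |w t| ≤ 1) :
    ∑ m ∈ range H, |∑ t ∈ range T, w t * Dz z ((v t + m).toNat)| ≤
      ∑ m ∈ range H, |∑ t ∈ range T, w t * dI z (v t + m)| + T * ∑ j ∈ Icc 1 (2 * M), |er z j| := by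
  have h1 : ∀ m ∈ range H, |∑ t ∈ range T, w t * Dz z ((v t + m).toNat)| ≤
      |∑ t ∈ range T, w t * dI z (v t + m)| +
        ∑ t ∈ range T, |(if 1 ≤ v t + (m : ℤ) then er z (v t + (m : ℤ)).toNat else 0)| := by
    intro m _
    have h2 : ∑ t ∈ range T, w t * Dz z ((v t + m).toNat) =
        ∑ t ∈ range T, w t * dI z (v t + m) -
        ∑ t ∈ range T, w t * (if 1 ≤ v t + (m : ℤ) then er z (v t + (m : ℤ)).toNat else 0) := by
      rw [← sum_sub_distrib]
      apply sum_congr rfl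
      intro t _
      rw [Dz_toNat]
      ring
    rw [h2]
    refine (abs_sub _ _).trans ?_
    apply add_le_add le_rfl
    refine (abs_sum_le_sum_abs _ _).trans ?_
    apply sum_le_sum
    intro t ht
    rw [abs_mul]
    exact mul_le_of_le_one_left (abs_nonneg _) (hw t (mem_range.1 ht))
  refine (sum_le_sum h1).trans ?_
  rw [sum_add_distrib]
  apply add_le_add le_rfl
  rw [sum_comm]
  have h3 : ∀ t ∈ range T, ∑ m ∈ range H,
      |(if 1 ≤ v t + (m : ℤ) then er z (v t + (m : ℤ)).toNat else 0)| ≤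
      ∑ j ∈ Icc 1 (2 * M), |er z j| := by
    intro t ht
    exact sum_er z H M (v t) (hv t (mem_range.1 ht)) hH
  refine (sum_le_sum h3).trans ?_
  rw [sum_const, card_range, nsmul_eq_mul]

/-- a shift does not change the energy -/
theorem En_shift (p T : ℕ) (v : ℕ → ℤ) :
    En p (fun t : Fin T => v t - 1) = En p (fun t : Fin T => v t) := by
  unfold Pool.Agent.TH212.EH.En
  apply Nat.card_congr
  apply Equiv.subtypeEquivRight
  intro q
  simp only [sum_sub_distrib]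
  constructor
  · intro h
    linarith
  · intro h
    rw [h]

/-- the error of the replacement -/
theorem er_small (N' z E A C D : ℕ) (L N : ℝ) (hL : 1 ≤ L) (hN' : 1 ≤ N') (hz1 : 1 ≤ z)
    (hz2 : (z : ℝ) ≤ L ^ E) (hV : (Vz z)⁻¹ ≤ L) (hN0 : 0 < N) (hN'2 : (N' : ℝ) ≤ 3 * N * L ^ C)
    (hlog : Real.log (2 * N' : ℕ) ≤ (D + 2) * L) (hexp : Real.exp L ≤ N)
    (g1 : (12 * ((D : ℝ) + 2)) * L ^ (C + A + 2) ≤ Real.exp (1 / 2 * L))
    (g2 : 4 * L ^ (E + E + A + 2) ≤ Real.exp (1 * L)) :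
    ∑ m ∈ Icc 1 (2 * N'), |er z m| ≤ N / L ^ (A + 1) := by
  have hL0 : 0 < L := by linarith
  refine (l1_fg (2 * N') z (by omega) hz1).trans ?_
  have e0 : 0 ≤ Real.log ((2 * N' : ℕ) : ℝ) := Real.log_natCast_nonneg _
  have hD : (0 : ℝ) ≤ D := Nat.cast_nonneg D
  have e2 : √((2 * N' : ℕ) : ℝ) ≤ √N * (3 * L ^ C) := by
    rw [Real.sqrt_le_left (by positivity), mul_pow, Real.sq_sqrt hN0.le]
    push_cast
    have h1 : 1 ≤ L ^ C := one_le_pow₀ hL
    nlinarith [mul_nonneg hN0.le (mul_nonneg (by linarith : (0 : ℝ) ≤ L ^ C) (by linarith : 0 ≤ L ^ C - 1))]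
  have hs : Real.exp (1 / 2 * L) ≤ √N := by
    apply Real.le_sqrt_of_sq_le
    rw [← Real.exp_nat_mul]
    refine le_trans (le_of_eq ?_) hexp
    congr 1
    push_cast
    ring
  have hss : √N * √N = N := Real.mul_self_sqrt hN0.le
  have hs0 : 0 ≤ √N := Real.sqrt_nonneg N
  have e3 : 2 * √((2 * N' : ℕ) : ℝ) * Real.log ((2 * N' : ℕ) : ℝ) ≤ N / L ^ (A + 1) / 2 := by
    rw [div_div, le_div_iff₀ (by positivity)]
    calc 2 * √((2 * N' : ℕ) : ℝ) * Real.log ((2 * N' : ℕ) : ℝ) * (L ^ (A + 1) * 2) ≤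
        2 * (√N * (3 * L ^ C)) * ((D + 2) * L) * (L ^ (A + 1) * 2) := by gcongr
      _ = √N * ((12 * ((D : ℝ) + 2)) * L ^ (C + A + 2)) := by ring
      _ ≤ √N * √N := by
          apply mul_le_mul_of_nonneg_left (g1.trans hs) hs0
      _ = N := hss
  have hLE : 1 ≤ L ^ E := one_le_pow₀ hL
  have hzr : (0 : ℝ) < z := by exact_mod_cast hz1
  have e5 : Real.log z ≤ L ^ E := by
    have := Real.log_le_sub_one_of_pos hzr
    linarith
  have hlz0 : 0 ≤ Real.log z := Real.log_natCast_nonneg z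
  have hV0 : 0 ≤ (Vz z)⁻¹ := inv_nonneg.2 (Vz_pos z).le
  have e6 : (z : ℝ) * (Real.log z + (Vz z)⁻¹) ≤ N / L ^ (A + 1) / 2 := by
    rw [div_div, le_div_iff₀ (by positivity)]
    have e7 : Real.log z + (Vz z)⁻¹ ≤ 2 * (L ^ E * L) := by
      have h4 : L ≤ L ^ E * L := le_mul_of_one_le_left hL0.le hLE
      have h5 : L ^ E ≤ L ^ E * L := le_mul_of_one_le_right (by positivity) hL
      linarith
    calc (z : ℝ) * (Real.log z + (Vz z)⁻¹) * (L ^ (A + 1) * 2) ≤
        L ^ E * (2 * (L ^ E * L)) * (L ^ (A + 1) * 2) := by gcongr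
      _ = 4 * L ^ (E + E + A + 2) := by ring
      _ ≤ Real.exp (1 * L) := g2
      _ ≤ N := by rw [one_mul]; exact hexp
  linarith

theorem t_LF : S_LF := by
  intro p C D A _
  obtain ⟨B0, h⟩ := Pool.Agent.Run7.h536.QC.dualc p 1 (2 * C + 2) 0 (A + C + 2)
  refine ⟨2 * B0, fun E => ?_⟩
  obtain ⟨N₁, h1⟩ := h E
  obtain ⟨N₂, hVi⟩ := Vz_inv_small E
  obtain ⟨L1, hd1⟩ := dom (12 * ((D : ℝ) + 2)) (1 / 2) (C + A + 2) (by norm_num)
  obtain ⟨L2, hd2⟩ := dom 4 1 (E + E + A + 2) one_pos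
  obtain ⟨L3, hd3⟩ := dom 6 1 C one_pos
  refine ⟨max (max N₁ N₂) ⌈Real.exp (max (max L1 L2) (max L3 (D + 3)))⌉₊,
    fun T hT N v hTN hND hv hEn z hz1 hz2 H hH w hw => ?_⟩
  have hT1 : N₁ ≤ T := le_trans (le_trans (le_max_left _ _) (le_max_left _ _)) hT
  have hT2 : N₂ ≤ T := le_trans (le_trans (le_max_right _ _) (le_max_left _ _)) hT
  have hT3 : Real.exp (max (max L1 L2) (max L3 (D + 3))) ≤ T :=
    (Nat.le_ceil _).trans (by exact_mod_cast le_trans (le_max_right _ _) hT)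
  have hT0 : (0 : ℝ) < T := lt_of_lt_of_le (Real.exp_pos _) hT3
  obtain ⟨L, hLdef⟩ : ∃ L, L = Real.log (T : ℝ) := ⟨_, rfl⟩
  have hLL : max (max L1 L2) (max L3 (D + 3)) ≤ L := by
    rw [hLdef, Real.le_log_iff_exp_le hT0]
    exact hT3
  have g1 := hd1 L (le_trans (le_trans (le_max_left _ _) (le_max_left _ _)) hLL)
  have g2 := hd2 L (le_trans (le_trans (le_max_right _ _) (le_max_left _ _)) hLL)
  have g3 := hd3 L (le_trans (le_trans (le_max_left _ _) (le_max_right _ _)) hLL)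
  have g4 : (D : ℝ) + 3 ≤ L := le_trans (le_trans (le_max_right _ _) (le_max_right _ _)) hLL
  have hD0 : (0 : ℝ) ≤ D := Nat.cast_nonneg D
  have hL3 : 3 ≤ L := by linarith
  have hL0 : 0 < L := by linarith
  have hTe : Real.exp L = T := by rw [hLdef, Real.exp_log hT0]
  rw [one_mul, hTe] at g3
  rw [← hLdef] at hv hEn hz1 hz2 hH ⊢
  have hLC : 1 ≤ L ^ C := one_le_pow₀ (by linarith)
  have hTN' : (T : ℝ) ≤ N := by exact_mod_cast hTN
  have hN0 : (0 : ℝ) < N := by linarith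
  have hN1 : (1 : ℝ) ≤ N := by
    have : 0 < N := by exact_mod_cast hN0
    exact_mod_cast this
  -- the larger interval
  obtain ⟨M, hM⟩ : ∃ M : ℕ, M = N * (⌈L ^ C⌉₊ + 1) := ⟨_, rfl⟩
  have hc1 : L ^ C ≤ (⌈L ^ C⌉₊ : ℝ) := Nat.le_ceil _
  have hc2 : (⌈L ^ C⌉₊ : ℝ) < L ^ C + 1 := Nat.ceil_lt_add_one (by positivity)
  have hMr : (M : ℝ) = N * ((⌈L ^ C⌉₊ : ℝ) + 1) := by
    rw [hM]
    push_cast
    ring
  have hMlow : (N : ℝ) * L ^ C + 1 ≤ M := by
    rw [hMr]
    nlinarith [mul_le_mul_of_nonneg_left hc1 hN0.le]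
  have hMup : (M : ℝ) ≤ 3 * N * L ^ C := by
    rw [hMr]
    have h5 : (⌈L ^ C⌉₊ : ℝ) + 1 ≤ 3 * L ^ C := by linarith
    calc (N : ℝ) * ((⌈L ^ C⌉₊ : ℝ) + 1) ≤ N * (3 * L ^ C) := mul_le_mul_of_nonneg_left h5 hN0.le
      _ = 3 * N * L ^ C := by ring
  have hNM : (N : ℝ) ≤ M := by
    have : (N : ℝ) * 1 ≤ N * L ^ C := mul_le_mul_of_nonneg_left hLC hN0.le
    linarith
  have hTM : (T : ℝ) ≤ M := hTN'.trans hNM
  have hTMn : T ≤ M := by exact_mod_cast hTM
  have hM0 : (0 : ℝ) < M := by linarith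
  have hMn : 1 ≤ M := by
    have : 0 < M := by exact_mod_cast hM0
    omega
  have hHM : H ≤ M := by
    have : (H : ℝ) ≤ M := by linarith
    exact_mod_cast this
  have hvM : ∀ t < T, |v t - 1| ≤ (M : ℤ) := by
    intro t ht
    have h5 := hv t ht
    have h6 : |((v t : ℝ)) - 1| ≤ |(v t : ℝ)| + 1 := by
      have := abs_sub (v t : ℝ) 1
      rwa [abs_one] at this
    have h7 : (|v t - 1| : ℝ) ≤ M := by
      push_cast at h5 ⊢
      linarith
    exact_mod_cast h7
  have hvM' : ∀ t < T, v t ≤ (M : ℤ) := by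
    intro t ht
    have h5 := hv t ht
    have h7 : (v t : ℝ) ≤ M := by
      push_cast at h5
      have := le_abs_self (v t : ℝ)
      linarith
    exact_mod_cast h7
  -- the logarithm
  have hlogN : Real.log N ≤ D * L := by
    have h5 := Real.log_le_log hN0 hND
    rwa [Real.log_pow, ← hLdef] at h5
  have hlogM2 : Real.log ((2 * M : ℕ) : ℝ) ≤ (D + 2) * L := by
    have h5 : ((2 * M : ℕ) : ℝ) ≤ N * T := by
      push_cast
      calc (2 : ℝ) * M ≤ N * (6 * L ^ C) := by linarith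
        _ ≤ N * T := mul_le_mul_of_nonneg_left g3 hN0.le
    have h6 : (0 : ℝ) < ((2 * M : ℕ) : ℝ) := by
      push_cast
      linarith
    have h7 := Real.log_le_log h6 h5
    rw [Real.log_mul hN0.ne' hT0.ne', ← hLdef] at h7
    linarith
  have hlogM : Real.log M ≤ L ^ 2 := by
    have h5 : Real.log (M : ℝ) ≤ Real.log ((2 * M : ℕ) : ℝ) := by
      apply Real.log_le_log hM0
      push_cast
      linarith
    have h6 : ((D : ℝ) + 2) * L ≤ L * L := mul_le_mul_of_nonneg_right (by linarith) hL0.le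
    linarith [sq L]
  have hlogM1 : L ≤ Real.log M := by
    rw [hLdef]
    exact Real.log_le_log hT0 hTM
  have hlogM0 : 0 < Real.log M := by linarith
  -- the energy
  have hEn' : (En p (fun t : Fin T => v t - 1) : ℝ) * M ≤
      Real.log M ^ (2 * C + 2) * (Fintype.card (Fin T) : ℝ) ^ (2 * p) := by
    rw [En_shift, Fintype.card_fin]
    have h5 : (⌈L ^ C⌉₊ : ℝ) + 1 ≤ L ^ C * L ^ 2 := by
      have h6 : (⌈L ^ C⌉₊ : ℝ) + 1 ≤ 3 * L ^ C := by linarith
      have h7 : L ^ C * 3 ≤ L ^ C * L ^ 2 := mul_le_mul_of_nonneg_left (by nlinarith) (by positivity)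
      linarith
    calc (En p (fun t : Fin T => v t) : ℝ) * (M : ℝ) =
        ((En p (fun t : Fin T => v t) : ℝ) * N) * ((⌈L ^ C⌉₊ : ℝ) + 1) := by rw [hMr]; ring
      _ ≤ (L ^ C * (T : ℝ) ^ (2 * p)) * (L ^ C * L ^ 2) := by
          apply mul_le_mul hEn h5 (by positivity) (by positivity)
      _ = L ^ (2 * C + 2) * (T : ℝ) ^ (2 * p) := by ring
      _ ≤ Real.log M ^ (2 * C + 2) * (T : ℝ) ^ (2 * p) := by gcongr
  have hzlow : Real.log M ^ B0 ≤ z := by
    refine le_trans ?_ hz1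
    rw [pow_mul]
    exact pow_le_pow_left₀ hlogM0.le hlogM B0
  have hzup : (z : ℝ) ≤ Real.log M ^ E := hz2.trans (pow_le_pow_left₀ hL0.le hlogM1 E)
  have hmain := h1 M (hT1.trans hTMn) (Fin T) (fun t : Fin T => v t - 1)
    (fun i => by
      have := hvM i i.2
      rw [Nat.cast_one, one_mul]
      exact this) hEn' z hzlow hzup (fun t : Fin T => w t)
    (fun i => by
      rw [pow_zero]
      exact hw i i.2)
  have hz1' : 1 ≤ z := by
    have h2 : (1 : ℝ) ≤ z := le_trans (one_le_pow₀ (by linarith)) hz1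
    exact_mod_cast h2
  have hV := hVi T hT2 z hz1' (by rw [← hLdef]; exact hz2)
  rw [← hLdef] at hV
  have hersmall := er_small M z E A C D L N (by linarith) hMn hz1' hz2 hV hN0 hMup hlogM2
    (by rw [hTe]; exact hTN') g1 g2
  refine (swap z H M T v w hvM' hHM hw).trans ?_
  have hfirst : ∑ m ∈ range H, |∑ t ∈ range T, w t * dI z (v t + m)| ≤
      M * T / Real.log M ^ (A + C + 2) := by
    rw [Fintype.card_fin] at hmain
    refine le_trans ?_ hmain
    rw [one_mul]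
    have h5 : ∑ m ∈ range H, |∑ t ∈ range T, w t * dI z (v t + m)| =
        ∑ c ∈ (range H).image (fun m : ℕ => m + 1), |∑ i : Fin T, w i * dI z ((c : ℤ) + (v i - 1))| := by
      rw [sum_image (fun x _ y _ h => by simpa using h)]
      apply sum_congr rfl
      intro m _
      congr 1
      rw [Finset.sum_range]
      apply sum_congr rfl
      intro i _
      congr 2
      push_cast
      ring
    rw [h5]
    apply sum_le_sum_of_subset_of_nonneg
    · intro c hc
      rw [mem_image] at hc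
      obtain ⟨m, hm, rfl⟩ := hc
      rw [mem_range] at hm
      rw [mem_Icc]
      omega
    · intro c _ _
      exact abs_nonneg _
  have hfirst' : (M : ℝ) * T / Real.log M ^ (A + C + 2) ≤ T * N / L ^ A / 3 := by
    have h5 : (M : ℝ) * T / Real.log M ^ (A + C + 2) ≤ (3 * N * L ^ C) * T / L ^ (A + C + 2) :=
      div_le_div₀ (by positivity) (mul_le_mul_of_nonneg_right hMup hT0.le) (by positivity)
        (pow_le_pow_left₀ hL0.le hlogM1 _)
    refine h5.trans ?_
    rw [div_div, div_le_div_iff₀ (by positivity) (by positivity)]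
    have h6 : (3 : ℝ) * 3 ≤ L ^ 2 := by nlinarith
    calc (3 * N * L ^ C) * T * (L ^ A * 3) = (N * L ^ C * T * L ^ A) * (3 * 3) := by ring
      _ ≤ (N * L ^ C * T * L ^ A) * L ^ 2 := mul_le_mul_of_nonneg_left h6 (by positivity)
      _ = T * N * L ^ (A + C + 2) := by ring
  have hsecond : (T : ℝ) * ∑ j ∈ Icc 1 (2 * M), |er z j| ≤ T * N / L ^ A / 3 := by
    refine (mul_le_mul_of_nonneg_left hersmall hT0.le).trans ?_
    rw [div_div, ← mul_div_assoc, div_le_div_iff₀ (by positivity) (by positivity)]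
    calc (T : ℝ) * N * (L ^ A * 3) ≤ T * N * (L ^ A * L) := by gcongr
      _ = T * N * L ^ (A + 1) := by ring
  have hpos : 0 ≤ (T : ℝ) * N / L ^ A := by positivity
  linarith

end

end Run7.h889.PG
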